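import Pool.Agent.H43.TT.Rat

/-!
# Many tiles of one size: `D ^ 2` of them if all lines meet the same number of them modulo `D`
-/

set_option autoImplicit false

namespace Pool.Agent.H43.TU

open Pool.H67.TC Pool.Agent.H43.TT MeasureTheory Set

theorem J_one {p s x : ℝ} (h : x ∈ Ioo p (p + s)) : J p s x = 1 := by
  unfold J
  rw [indicator_of_mem h]

theorem J_mem {p s x : ℝ} (h : J p s x = 1) : x ∈ Ioo p (p + s) := by
  by_contra hc
  unfold J at h
  rw [indicator_of_notMem hc] at h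
  exact zero_ne_one h

theorem J_nonneg (p s x : ℝ) : 0 ≤ J p s x := by
  rcases J_01 p s x with h | h <;> rw [h]
  norm_num

theorem J_le (p s x : ℝ) : J p s x ≤ 1 := by
  rcases J_01 p s x with h | h <;> rw [h]
  norm_num

/-- an open interval of length `σ` contains at most one of some points with distances at least `σ` -/
theorem spaced {ι : Type*} [Fintype ι] (y : ι → ℝ) (σ : ℝ)
    (h : ∀ j k, j ≠ k → σ ≤ |y j - y k|) (p : ℝ) : ∑ j, J p σ (y j) ≤ 1 := by
  classical
  by_cases hex : ∃ j, J p σ (y j) = 1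
  · obtain ⟨j, hj⟩ := hex
    rw [Finset.sum_eq_single j]
    · exact hj.le
    · intro k _ hk
      rcases J_01 p σ (y k) with h1 | h1
      · exact h1
      · exfalso
        have h2 := h k j hk
        have h3 := J_mem hj
        have h4 := J_mem h1
        have h5 : |y k - y j| < σ := by
          rw [abs_lt]
          constructor
          · linarith [h3.1, h3.2, h4.1, h4.2]
          · linarith [h3.1, h3.2, h4.1, h4.2]
        linarith
    · intro h1
      exact absurd (Finset.mem_univ j) h1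
  · push Not at hex
    rw [Finset.sum_eq_zero fun j _ => (J_01 p σ (y j)).resolve_right (hex j)]
    norm_num

/-- no tile of side `σ` meets two lines of the grid -/
theorem grid {ι κ : Type*} [Fintype ι] [Fintype κ] {n : ℕ} (A : Fin n → Fin 3 → ℝ) (s e : Fin n → ℝ)
    (he01 : ∀ i, e i = 0 ∨ e i = 1) (σ : ℝ) (heσ : ∀ i, e i = 1 → s i = σ)
    (y : ι → ℝ) (z : κ → ℝ) (hy : ∀ j k, j ≠ k → σ ≤ |y j - y k|)
    (hz : ∀ j k, j ≠ k → σ ≤ |z j - z k|) :
    ∑ j, ∑ l, ∑ i, e i * (J (A i 1) (s i) (y j) * J (A i 2) (s i) (z l)) ≤ ∑ i, e i := by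
  have e1 : ∑ j, ∑ l, ∑ i, e i * (J (A i 1) (s i) (y j) * J (A i 2) (s i) (z l)) =
      ∑ i, e i * ((∑ j, J (A i 1) (s i) (y j)) * ∑ l, J (A i 2) (s i) (z l)) := by
    calc _ = ∑ j, ∑ i, ∑ l, e i * (J (A i 1) (s i) (y j) * J (A i 2) (s i) (z l)) :=
          Finset.sum_congr rfl fun j _ => Finset.sum_comm
      _ = ∑ i, ∑ j, ∑ l, e i * (J (A i 1) (s i) (y j) * J (A i 2) (s i) (z l)) := Finset.sum_comm
      _ = _ := by
        refine Finset.sum_congr rfl fun i _ => ?_
        rw [Finset.sum_mul_sum, Finset.mul_sum]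
        refine Finset.sum_congr rfl fun j _ => ?_
        rw [Finset.mul_sum]
  rw [e1]
  refine Finset.sum_le_sum fun i _ => ?_
  rcases he01 i with h | h
  · rw [h, zero_mul]
  · rw [h, one_mul, heσ i h]
    have h1 := spaced y σ hy (A i 1)
    have h2 := spaced z σ hz (A i 2)
    have h3 : 0 ≤ ∑ l, J (A i 2) σ (z l) := Finset.sum_nonneg fun l _ => J_nonneg _ _ _
    exact mul_le_one₀ h1 h3 h2

/-- generic translations -/
theorem gen_shift {ι : Type*} [Finite ι] (q : ι → ℝ) (F : Set ℝ) (hF : F.Finite) (σ : ℝ) (hσ : 0 < σ) :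
    ∃ t ∈ Ioo (0 : ℝ) σ, ∀ j, q j + t ∉ F := by
  have h1 : (⋃ j, (fun x => x - q j) '' F).Finite := finite_iUnion fun j => hF.image _
  obtain ⟨t, ht⟩ := ((Ioo_infinite hσ).sdiff h1).nonempty
  refine ⟨t, ht.1, fun j hj => ht.2 (mem_iUnion.2 ⟨j, ⟨q j + t, hj, by ring⟩⟩)⟩

variable {n : ℕ} {A : Fin n → Fin 3 → ℝ} {s : Fin n → ℝ}

/-- two different tiles over the same generic point of the plane have distance at least `σ` -/
theorem apart (hD : ∀ i j, i ≠ j → Disjoint (interior (cube3 (A i) (s i))) (interior (cube3 (A j) (s j))))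
    {σ x z : ℝ} {i j : Fin n} (hij : i ≠ j) (hi : s i = σ) (hj : s j = σ) (hσ : 0 < σ)
    (xi : x ∈ Ioo (A i 0) (A i 0 + s i)) (xj : x ∈ Ioo (A j 0) (A j 0 + s j))
    (zi : z ∈ Ioo (A i 2) (A i 2 + s i)) (zj : z ∈ Ioo (A j 2) (A j 2 + s j)) :
    σ ≤ |A i 1 - A j 1| := by
  by_contra hc
  push Not at hc
  rw [abs_lt] at hc
  have h1 := hD i j hij
  rw [interior_cube, interior_cube, disjoint_left] at h1
  obtain ⟨y, hy1, hy2, hy3, hy4⟩ : ∃ y, A i 1 < y ∧ y < A i 1 + σ ∧ A j 1 < y ∧ y < A j 1 + σ := by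
    refine ⟨(A i 1 + A j 1 + σ) / 2, ?_, ?_, ?_, ?_⟩ <;> linarith [hc.1, hc.2]
  refine h1 (a := ![x, y, z]) ?_ ?_
  · intro k
    fin_cases k
    · exact xi
    · show y ∈ Ioo (A i 1) (A i 1 + s i)
      rw [hi]
      exact ⟨hy1, hy2⟩
    · exact zi
  · intro k
    fin_cases k
    · exact xj
    · show y ∈ Ioo (A j 1) (A j 1 + s j)
      rw [hj]
      exact ⟨hy3, hy4⟩
    · exact zj

end Pool.Agent.H43.TU
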