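import Pool.Agent.H43.TU.Rat
import Pool.Agent.H43.TT.Res

/-!
# A residue class without tilings of small quotient, with `a ^ 2 ≤ n`
-/

set_option autoImplicit false

namespace Pool.Agent.H43.TU

open Pool.Agent.H43.TT

theorem classes2 (A : ℕ) : ∃ q r : ℕ, 0 < q ∧ ∀ n : ℕ, n ≡ r [MOD q] → ∀ s₁ s₂ : ℝ, Tiles n s₁ s₂ →
    ∃ a b : ℕ, A < a ∧ 1 ≤ b ∧ b < a ∧ a ^ 2 ≤ n ∧ Nat.Coprime a b ∧
      (s₁ * a = s₂ * b ∨ s₂ * a = s₁ * b) := by
  classical
  set S : Finset (ℕ × ℕ) := ((Finset.range (A + 3)) ×ˢ (Finset.range (A + 3))).filter fun p =>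
    1 ≤ p.2 ∧ p.2 < p.1 ∧ Nat.Coprime p.1 p.2 with hS
  have hSm : ∀ p ∈ S, ∃ l : ℕ, l.Prime ∧ (l : ℤ) ∣ (p.1 : ℤ) ^ 3 - p.2 ^ 3 ∧
      ∃ g : ℕ, ∀ y : ℤ, ¬ (l : ℤ) ∣ y ^ 3 - g := by
    intro p hp
    obtain ⟨h1, h2, h3⟩ := (Finset.mem_filter.1 hp).2
    exact nc h3 h1 h2
  choose! L hL1 hL2 hL3 using hSm
  set g : ℕ → ℕ := fun l => if h : ∃ g : ℕ, ∀ y : ℤ, ¬ (l : ℤ) ∣ y ^ 3 - g then h.choose else 0 with hg
  set t : Finset ℕ := S.image L with ht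
  have htp : ∀ l ∈ t, l.Prime := by
    intro l hl
    obtain ⟨p, hp, rfl⟩ := Finset.mem_image.1 hl
    exact hL1 p hp
  obtain ⟨r, hr⟩ := Nat.chineseRemainderOfFinset g id t (fun l hl => (htp l hl).ne_zero)
    (fun l hl l' hl' hne => (Nat.coprime_primes (htp l hl) (htp l' hl')).2 hne)
  refine ⟨∏ l ∈ t, l, r, Finset.prod_pos fun l hl => (htp l hl).pos, fun n hn s₁ s₂ hT => ?_⟩
  have key : ∀ p ∈ S, ∀ y : ℤ, ¬ ((p.1 : ℤ) ^ 3 - p.2 ^ 3) ∣ y ^ 3 - n := by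
    intro p hp y hy
    have h1 : (L p : ℤ) ∣ y ^ 3 - n := (hL2 p hp).trans hy
    have hmem : L p ∈ t := Finset.mem_image_of_mem L hp
    have h2 : n ≡ g (L p) [MOD L p] := by
      have h3 : n ≡ r [MOD L p] := hn.of_dvd (Finset.dvd_prod_of_mem (fun l => l) hmem)
      exact h3.trans (hr _ hmem)
    have h4 : g (L p) = (hL3 p hp).choose := by
      simp only [hg]
      rw [dif_pos (hL3 p hp)]
    have h5 := (hL3 p hp).choose_spec y
    rw [← h4] at h5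
    refine h5 ?_
    have h6 : (L p : ℤ) ∣ (n : ℤ) - g (L p) := by
      have h7 := (Nat.modEq_iff_dvd.1 h2.symm)
      exact h7
    have h8 : y ^ 3 - (g (L p) : ℤ) = (y ^ 3 - n) + (n - g (L p)) := by ring
    rw [h8]
    exact dvd_add h1 h6
  rcases nec2 hT with ⟨N, hN⟩ | ⟨a, b, hb, hab, han, hc, hrel, y, hy⟩
  · exfalso
    refine key (2, 1) ?_ N ?_
    · rw [hS, Finset.mem_filter, Finset.mem_product, Finset.mem_range, Finset.mem_range]
      refine ⟨⟨?_, ?_⟩, le_rfl, ?_, ?_⟩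
      · show 2 < A + 3
        omega
      · show 1 < A + 3
        omega
      · show 1 < 2
        omega
      · show Nat.Coprime 2 1
        exact Nat.coprime_one_right 2
    · rw [hN]
      push_cast
      rw [sub_self]
      exact dvd_zero _
  · refine ⟨a, b, ?_, hb, hab, han, hc, hrel⟩
    by_contra hA
    refine key (a, b) ?_ y hy
    rw [hS, Finset.mem_filter, Finset.mem_product, Finset.mem_range, Finset.mem_range]
    refine ⟨⟨?_, ?_⟩, hb, hab, hc⟩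
    · show a < A + 3
      omega
    · show b < A + 3
      omega

end Pool.Agent.H43.TU
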