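import Pool.Agent.H43.TU.Rat
import Pool.Agent.H43.TT.Res

/-!
# A residue class without tilings of small quotient, with `a ^ 2 ≤ n` and a bound for the modulus
-/

set_option autoImplicit false

namespace Pool.Agent.H43.TU

open Pool.Agent.H43.TT

theorem small_prime {l a b : ℕ} (hl : l.Prime) (hba : b < a) (h : (l : ℤ) ∣ (a : ℤ) ^ 3 - b ^ 3) :
    l ≤ a ^ 2 + a * b + b ^ 2 := by
  have h1 : (l : ℤ) ∣ ((a : ℤ) - b) * ((a : ℤ) ^ 2 + a * b + b ^ 2) := by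
    have e : ((a : ℤ) - b) * ((a : ℤ) ^ 2 + a * b + b ^ 2) = (a : ℤ) ^ 3 - b ^ 3 := by ring
    rw [e]
    exact h
  have hb : (b : ℤ) < a := by exact_mod_cast hba
  have hb0 : (0 : ℤ) ≤ b := Int.natCast_nonneg b
  rcases Int.Prime.dvd_mul' hl h1 with h2 | h2
  · have h3 := Int.le_of_dvd (by linarith) h2
    have h4 : (l : ℤ) ≤ (a : ℤ) ^ 2 + a * b + b ^ 2 := by nlinarith
    exact_mod_cast h4
  · have h3 := Int.le_of_dvd (by nlinarith) h2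
    exact_mod_cast h3

theorem classes3 (A : ℕ) : ∃ q r : ℕ, 0 < q ∧ q ≤ 4 ^ (3 * (A + 2) ^ 2) ∧ ∀ n : ℕ, n ≡ r [MOD q] → ∀ s₁ s₂ : ℝ, Tiles n s₁ s₂ →
    ∃ a b : ℕ, A < a ∧ 1 ≤ b ∧ b < a ∧ a ^ 2 ≤ n ∧ Nat.Coprime a b ∧
      (s₁ * a = s₂ * b ∨ s₂ * a = s₁ * b) := by
  classical
  set S : Finset (ℕ × ℕ) := ((Finset.range (A + 3)) ×ˢ (Finset.range (A + 3))).filter fun p =>
    1 ≤ p.2 ∧ p.2 < p.1 ∧ Nat.Coprime p.1 p.2 with hS
  have hSm : ∀ p ∈ S, ∃ l : ℕ, l.Prime ∧ (l : ℤ) ∣ (p.1 : ℤ) ^ 3 - p.2 ^ 3 ∧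
      ∃ g : ℕ, ∀ y : ℤ, ¬ (l : ℤ) ∣ y ^ 3 - g := by
    intro p hp
    obtain ⟨h1, h2, h3⟩ := (Finset.mem_filter.1 hp).2
    exact nc h3 h1 h2
  choose! L hL1 hL2 hL3 using hSm
  set g : ℕ → ℕ := fun l => if h : ∃ g : ℕ, ∀ y : ℤ, ¬ (l : ℤ) ∣ y ^ 3 - g then h.choose else 0 with hg
  set t : Finset ℕ := S.image L with ht
  have htp : ∀ l ∈ t, l.Prime := by
    intro l hl
    obtain ⟨p, hp, rfl⟩ := Finset.mem_image.1 hl
    exact hL1 p hp
  obtain ⟨r, hr⟩ := Nat.chineseRemainderOfFinset g id t (fun l hl => (htp l hl).ne_zero)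
    (fun l hl l' hl' hne => (Nat.coprime_primes (htp l hl) (htp l' hl')).2 hne)
  refine ⟨∏ l ∈ t, l, r, Finset.prod_pos fun l hl => (htp l hl).pos, ?_, fun n hn s₁ s₂ hT => ?_⟩
  · refine le_trans (Finset.prod_le_prod_of_subset_of_one_le' (t := (Finset.range (3 * (A + 2) ^ 2 + 1)).filter Nat.Prime) ?_ ?_) (primorial_le_four_pow _)
    · intro l hl
      obtain ⟨p, hp, rfl⟩ := Finset.mem_image.1 hl
      rw [Finset.mem_filter, Finset.mem_range]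
      refine ⟨?_, hL1 p hp⟩
      obtain ⟨h1, h2, h3⟩ := (Finset.mem_filter.1 hp).2
      have h4 := (Finset.mem_product.1 (Finset.mem_filter.1 hp).1).1
      rw [Finset.mem_range] at h4
      have h5 := small_prime (hL1 p hp) h2 (hL2 p hp)
      have h6 : p.1 ^ 2 + p.1 * p.2 + p.2 ^ 2 ≤ 3 * (A + 2) ^ 2 := by
        have h7 : p.1 ≤ A + 2 := by omega
        have h8 : p.2 ≤ A + 2 := by omega
        have h9 : p.1 ^ 2 ≤ (A + 2) ^ 2 := Nat.pow_le_pow_left h7 2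
        have h10 : p.2 ^ 2 ≤ (A + 2) ^ 2 := Nat.pow_le_pow_left h8 2
        have h11 : p.1 * p.2 ≤ (A + 2) ^ 2 := by rw [sq]; exact Nat.mul_le_mul h7 h8
        omega
      omega
    · intro l hl _
      exact (Finset.mem_filter.1 hl).2.one_lt.le
  have key : ∀ p ∈ S, ∀ y : ℤ, ¬ ((p.1 : ℤ) ^ 3 - p.2 ^ 3) ∣ y ^ 3 - n := by
    intro p hp y hy
    have h1 : (L p : ℤ) ∣ y ^ 3 - n := (hL2 p hp).trans hy
    have hmem : L p ∈ t := Finset.mem_image_of_mem L hp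
    have h2 : n ≡ g (L p) [MOD L p] := by
      have h3 : n ≡ r [MOD L p] := hn.of_dvd (Finset.dvd_prod_of_mem (fun l => l) hmem)
      exact h3.trans (hr _ hmem)
    have h4 : g (L p) = (hL3 p hp).choose := by
      simp only [hg]
      rw [dif_pos (hL3 p hp)]
    have h5 := (hL3 p hp).choose_spec y
    rw [← h4] at h5
    refine h5 ?_
    have h6 : (L p : ℤ) ∣ (n : ℤ) - g (L p) := by
      have h7 := (Nat.modEq_iff_dvd.1 h2.symm)
      exact h7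
    have h8 : y ^ 3 - (g (L p) : ℤ) = (y ^ 3 - n) + (n - g (L p)) := by ring
    rw [h8]
    exact dvd_add h1 h6
  rcases nec2 hT with ⟨N, hN⟩ | ⟨a, b, hb, hab, han, hc, hrel, y, hy⟩
  · exfalso
    refine key (2, 1) ?_ N ?_
    · rw [hS, Finset.mem_filter, Finset.mem_product, Finset.mem_range, Finset.mem_range]
      refine ⟨⟨?_, ?_⟩, le_rfl, ?_, ?_⟩
      · show 2 < A + 3
        omega
      · show 1 < A + 3
        omega
      · show 1 < 2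
        omega
      · show Nat.Coprime 2 1
        exact Nat.coprime_one_right 2
    · rw [hN]
      push_cast
      rw [sub_self]
      exact dvd_zero _
  · refine ⟨a, b, ?_, hb, hab, han, hc, hrel⟩
    by_contra hA
    refine key (a, b) ?_ y hy
    rw [hS, Finset.mem_filter, Finset.mem_product, Finset.mem_range, Finset.mem_range]
    refine ⟨⟨?_, ?_⟩, hb, hab, hc⟩
    · show a < A + 3
      omega
    · show b < A + 3
      omega

theorem classes4 (A : ℕ) : ∃ q r : ℕ, 0 < q ∧ q ≤ 64 ^ ((A + 2) ^ 2) ∧ ∀ n : ℕ, n ≡ r [MOD q] →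
    ∀ s₁ s₂ : ℝ, Tiles n s₁ s₂ → ∃ a b : ℕ, A < a ∧ 1 ≤ b ∧ b < a ∧ a ^ 2 ≤ n ∧ Nat.Coprime a b ∧
      (s₁ * a = s₂ * b ∨ s₂ * a = s₁ * b) := by
  obtain ⟨q, r, h1, h2, h3⟩ := classes3 A
  refine ⟨q, r, h1, ?_, h3⟩
  rw [pow_mul] at h2
  exact h2

end Pool.Agent.H43.TU
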