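import Pool.Agent.H43.TU.Key

/-!
# At least `D ^ 2` tiles of side `σ ≤ 1 / D` if all lines meet the same number of them modulo `D`
-/

set_option autoImplicit false

namespace Pool.Agent.H43.TU

open Pool.H67.TC Pool.Agent.H43.TT MeasureTheory Set

variable {n : ℕ} {A : Fin n → Fin 3 → ℝ} {s : Fin n → ℝ}

theorem e_sum (p s' : Fin n → ℝ) (q s'' : Fin n → ℝ) (e : Fin n → ℝ) (he01 : ∀ i, e i = 0 ∨ e i = 1)
    (y z : ℝ) : ∃ k : ℕ, ∑ i, e i * (J (p i) (s' i) y * J (q i) (s'' i) z) = k ∧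
      ∀ i, e i = 1 → y ∈ Ioo (p i) (p i + s' i) → z ∈ Ioo (q i) (q i + s'' i) → 1 ≤ k := by
  have h01 : ∀ i, e i * (J (p i) (s' i) y * J (q i) (s'' i) z) = 0 ∨
      e i * (J (p i) (s' i) y * J (q i) (s'' i) z) = 1 := by
    intro i
    rcases he01 i with h | h
    · left
      rw [h, zero_mul]
    · rw [h, one_mul]
      rcases J_01 (p i) (s' i) y with h1 | h1
      · left
        rw [h1, zero_mul]
      · rw [h1, one_mul]
        exact J_01 _ _ _
  obtain ⟨k, hk⟩ := natsum _ h01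
  refine ⟨k, hk, fun i h1 h2 h3 => ?_⟩
  have h4 : (0 : ℝ) < k := by
    rw [← hk]
    refine Finset.sum_pos' (fun j _ => by rcases h01 j with h | h <;> rw [h]; norm_num)
      ⟨i, Finset.mem_univ _, ?_⟩
    rw [h1, J_one h2, J_one h3]
    norm_num
  exact_mod_cast h4

theorem key (hpos : ∀ i, 0 < s i) (hU : (⋃ i, cube3 (A i) (s i)) = cube3 0 1)
    (hD : ∀ i j, i ≠ j → Disjoint (interior (cube3 (A i) (s i))) (interior (cube3 (A j) (s j))))
    (e : Fin n → ℝ) (he01 : ∀ i, e i = 0 ∨ e i = 1) (σ : ℝ) (hσ : 0 < σ)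
    (heσ : ∀ i, e i = 1 → s i = σ) (i1 : Fin n) (hi1 : e i1 = 1) (D : ℕ)
    (hDσ : (D : ℝ) * σ ≤ 1) (r : ℕ)
    (hmod1 : ∀ y ∈ Ioo (0 : ℝ) 1, ∀ z ∈ Ioo (0 : ℝ) 1, y ∉ faces A s 1 → z ∉ faces A s 2 → ∀ k : ℕ,
      ∑ i, e i * (J (A i 1) (s i) y * J (A i 2) (s i) z) = k → k % D = r)
    (hmod2 : ∀ x ∈ Ioo (0 : ℝ) 1, ∀ z ∈ Ioo (0 : ℝ) 1, x ∉ faces A s 0 → z ∉ faces A s 2 → ∀ k : ℕ,
      ∑ i, e i * (J (A i 0) (s i) x * J (A i 2) (s i) z) = k → k % D = r) :
    (D : ℝ) ^ 2 ≤ ∑ i, e i := by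
  classical
  rcases Nat.eq_zero_or_pos r with hr | hr
  · -- all numbers are divisible by `D`
    obtain ⟨z, hz, gz⟩ := ((Ioo_infinite (show A i1 2 < A i1 2 + s i1 by linarith [hpos i1])).sdiff
      (faces_finite A s 2)).nonempty
    obtain ⟨x, hx, gx⟩ := ((Ioo_infinite (show A i1 0 < A i1 0 + s i1 by linarith [hpos i1])).sdiff
      (faces_finite A s 0)).nonempty
    have hz1 : z ∈ Ioo (0 : ℝ) 1 := by
      have h := inside hpos hU i1 2
      exact ⟨by linarith [hz.1], by linarith [hz.2]⟩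
    have hx1 : x ∈ Ioo (0 : ℝ) 1 := by
      have h := inside hpos hU i1 0
      exact ⟨by linarith [hx.1], by linarith [hx.2]⟩
    set I : Finset (Fin n) := Finset.univ.filter fun i => e i = 1 ∧ x ∈ Ioo (A i 0) (A i 0 + s i) ∧
      z ∈ Ioo (A i 2) (A i 2 + s i) with hI
    have hIm : ∀ i, i ∈ I ↔ e i = 1 ∧ x ∈ Ioo (A i 0) (A i 0 + s i) ∧
        z ∈ Ioo (A i 2) (A i 2 + s i) := by
      intro i
      rw [hI, Finset.mem_filter]
      exact ⟨fun h => h.2, fun h => ⟨Finset.mem_univ _, h⟩⟩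
    have hcard : ∑ i, e i * (J (A i 0) (s i) x * J (A i 2) (s i) z) = (I.card : ℕ) := by
      rw [hI, Finset.card_filter]
      push_cast
      refine Finset.sum_congr rfl fun i _ => ?_
      by_cases h : e i = 1 ∧ x ∈ Ioo (A i 0) (A i 0 + s i) ∧ z ∈ Ioo (A i 2) (A i 2 + s i)
      · rw [if_pos h, h.1, J_one h.2.1, J_one h.2.2]
        norm_num
      · rw [if_neg h]
        rcases he01 i with h1 | h1
        · rw [h1, zero_mul]
        · rcases J_01 (A i 0) (s i) x with h2 | h2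
          · rw [h2, zero_mul, mul_zero]
          · rcases J_01 (A i 2) (s i) z with h3 | h3
            · rw [h3, mul_zero, mul_zero]
            · exact absurd ⟨h1, J_mem h2, J_mem h3⟩ h
    have hmod := hmod2 x hx1 z hz1 gx gz _ hcard
    have hi1I : i1 ∈ I := (hIm i1).2 ⟨hi1, hx, hz⟩
    have hDI : D ≤ I.card := by
      rw [hr] at hmod
      exact Nat.le_of_dvd (Finset.card_pos.2 ⟨i1, hi1I⟩) (Nat.dvd_of_mod_eq_zero hmod)
    obtain ⟨t, ht, gt⟩ := gen_shift (fun i : I => A i.1 1) (faces A s 1) (faces_finite A s 1) σ hσ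
    have hsI : ∀ i : I, s i.1 = σ := fun i => heσ i.1 ((hIm i.1).1 i.2).1
    have hyI : ∀ i : I, A i.1 1 + t ∈ Ioo (A i.1 1) (A i.1 1 + s i.1) := fun i => by
      rw [hsI i]
      exact ⟨by linarith [ht.1], by linarith [ht.2]⟩
    have hg := grid A s e he01 σ heσ (fun i : I => A i.1 1 + t) (fun _ : Unit => z)
      (by
        intro i j hij
        have h1 := (hIm i.1).1 i.2
        have h2 := (hIm j.1).1 j.2
        have h3 := apart hD (fun h => hij (Subtype.ext h)) (hsI i) (hsI j) hσ h1.2.1 h2.2.1 h1.2.2 h2.2.2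
        have h4 : A i.1 1 + t - (A j.1 1 + t) = A i.1 1 - A j.1 1 := by ring
        show σ ≤ |A i.1 1 + t - (A j.1 1 + t)|
        rw [h4]
        exact h3)
      (fun j k hjk => absurd rfl hjk)
    refine le_trans ?_ hg
    have hlow : ∀ i : I, (D : ℝ) ≤ ∑ l : Unit, ∑ i', e i' * (J (A i' 1) (s i') (A i.1 1 + t) *
        J (A i' 2) (s i') z) := by
      intro i
      rw [Fintype.sum_unique]
      obtain ⟨k, hk, hk1⟩ := e_sum (fun i => A i 1) s (fun i => A i 2) s e he01 (A i.1 1 + t) z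
      have h1 := (hIm i.1).1 i.2
      have h2 := inside hpos hU i.1 1
      have h3 := hyI i
      have h4 := hmod1 (A i.1 1 + t) ⟨by linarith [h3.1], by linarith [h3.2]⟩ z hz1 (gt i) gz k hk
      have h5 : D ≤ k := by
        rw [hr] at h4
        exact Nat.le_of_dvd (hk1 i.1 h1.1 h3 h1.2.2) (Nat.dvd_of_mod_eq_zero h4)
      rw [hk]
      exact_mod_cast h5
    calc (D : ℝ) ^ 2 = D * D := by ring
      _ ≤ (I.card : ℝ) * D := by
        have : (D : ℝ) ≤ I.card := by exact_mod_cast hDI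
        exact mul_le_mul_of_nonneg_right this (Nat.cast_nonneg _)
      _ = ∑ _i : I, (D : ℝ) := by
        rw [Finset.sum_const, Finset.card_univ, Fintype.card_coe, nsmul_eq_mul]
      _ ≤ _ := Finset.sum_le_sum fun i _ => hlow i
  · -- every line meets a tile of side `σ`
    obtain ⟨t, ht, gt⟩ := gen_shift (fun j : Fin D => (j : ℝ) * σ) (faces A s 1)
      (faces_finite A s 1) σ hσ
    obtain ⟨t', ht', gt'⟩ := gen_shift (fun j : Fin D => (j : ℝ) * σ) (faces A s 2)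
      (faces_finite A s 2) σ hσ
    have hin : ∀ (j : Fin D) (t : ℝ), t ∈ Ioo (0 : ℝ) σ → (j : ℝ) * σ + t ∈ Ioo (0 : ℝ) 1 := by
      intro j t ht
      have h1 : ((j : ℕ) : ℝ) + 1 ≤ D := by exact_mod_cast j.2
      have h2 : (0 : ℝ) ≤ (j : ℕ) := Nat.cast_nonneg _
      constructor
      · have := mul_nonneg h2 hσ.le
        linarith [ht.1]
      · nlinarith [ht.2]
    have hsp : ∀ (t : ℝ) (j k : Fin D), j ≠ k → σ ≤ |(j : ℝ) * σ + t - ((k : ℝ) * σ + t)| := by
      intro t j k hjk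
      have h1 : (j : ℝ) * σ + t - ((k : ℝ) * σ + t) = (((j : ℕ) : ℝ) - (k : ℕ)) * σ := by ring
      rw [h1, abs_mul, abs_of_pos hσ]
      have h2 : (1 : ℝ) ≤ |((j : ℕ) : ℝ) - (k : ℕ)| := by
        have h3 : (1 : ℤ) ≤ |((j : ℕ) : ℤ) - (k : ℕ)| := by
          refine Int.one_le_abs ?_
          intro h4
          exact hjk (Fin.ext (by omega))
        exact_mod_cast h3
      nlinarith
    have hg := grid A s e he01 σ heσ (fun j : Fin D => (j : ℝ) * σ + t)
      (fun j : Fin D => (j : ℝ) * σ + t') (hsp t) (hsp t')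
    refine le_trans ?_ hg
    have hlow : ∀ j l : Fin D, (1 : ℝ) ≤ ∑ i, e i * (J (A i 1) (s i) ((j : ℝ) * σ + t) *
        J (A i 2) (s i) ((l : ℝ) * σ + t')) := by
      intro j l
      obtain ⟨k, hk, -⟩ := e_sum (fun i => A i 1) s (fun i => A i 2) s e he01 ((j : ℝ) * σ + t)
        ((l : ℝ) * σ + t')
      have h4 := hmod1 _ (hin j t ht) _ (hin l t' ht') (gt j) (gt' l) k hk
      have h5 : 1 ≤ k := by
        rcases Nat.eq_zero_or_pos k with h6 | h6
        · rw [h6, Nat.zero_mod] at h4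
          omega
        · exact h6
      rw [hk]
      exact_mod_cast h5
    calc (D : ℝ) ^ 2 = ∑ _j : Fin D, ∑ _l : Fin D, (1 : ℝ) := by
          simp [sq]
      _ ≤ _ := Finset.sum_le_sum fun j _ => Finset.sum_le_sum fun l _ => hlow j l

/-- the equation of the lines in the second direction -/
theorem L1' (hs : ∀ i, 0 < s i) (hU : (⋃ i, cube3 (A i) (s i)) = cube3 0 1)
    (hD : ∀ i j, i ≠ j → Disjoint (interior (cube3 (A i) (s i))) (interior (cube3 (A j) (s j))))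
    {x z : ℝ} (hx : x ∈ Ioo (0 : ℝ) 1) (hz : z ∈ Ioo (0 : ℝ) 1)
    (gx : x ∉ faces A s 0) (gz : z ∉ faces A s 2) :
    ∑ i, J (A i 0) (s i) x * J (A i 2) (s i) z * s i = 1 :=
  int2 _ (fun i => A i 1) s (fun i => (hs i).le) (fun i => inside hs hU i 1) 1 _ (faces_finite A s 1)
    fun y hy gy => by
      rw [← L0 hU hD hx hy hz gx gy gz]
      exact Finset.sum_congr rfl fun i _ => by ring

end Pool.Agent.H43.TU
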